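import Pool.Agent.N115.JT.Fin

/-!
# The fibration which is defined by all the multi-valued maps of bounded degree from a variety to
the subvarieties of the varieties of the vectors whose powers are the values of a polynomial

Let `a 0, ..., a N` be distinct constants. For `m ≥ 2` let `X_m ⊆ P^N` be the `n`-dimensional
complete intersection of the points `x` for which there is a polynomial `H` of degree at most `n`
such that `x i ^ m = H (a i)` for all `i`. Let `M` be an arbitrary variety, of dimension `D`. We
consider all the rational maps with at most `r` values from `M` to closed subvarieties of the `X_m`
which are not ruled (`Pool.Agent.N115.JT.MultiMap`); these are the correspondences between `M` and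
`Z`, of degree at most `r` over `M`; no assumption is made on the branch loci. Together they define
a rational fibration `M ⇢ M₀` with connected fibres: the function field of `M₀`
(`Pool.Agent.N115.JT.baseField`) consists of the functions on `M` which are algebraic over the field
generated by all the values of the maps.

`GeneralType k F w` says that the projective manifolds with function field `F` are of general type
and of dimension `w` (forms on `F` which are regular at all prime divisors, `Pool/Agent/W602/GT`);
`coords k y` is the field of the ratios of the homogeneous coordinates `y`; `Ruled k F`: `F` is the
field of the rational functions in one variable over a subfield.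
-/

set_option autoImplicit false

open Pool.Agent.W602.GT (GeneralType coords)
open Pool.Agent.N115.JT (MultiMap baseField)

namespace Pool.Agent.Results.MP_5ff3c6_ag.MultivaluedFibrations

/-- Let `R = s r n`, `4 R + (R + s r (r - 1) + 1) ^ 2 < 2 (N + 1)`, let `M` be a variety of dimension
`D`, with function field `L`, and `f` a family of `r`-valued maps from `M` to non-ruled closed
subvarieties of the `X_m`, `m ≥ 2`; assume that `D ≤ s`, or that there are at most `s` maps. Let
`M₀` be the base of the fibration defined by these maps, with function field `baseField f`. Then
`M₀` is a point or of general type. All the maps are constant on the fibres of `M ⇢ M₀` (their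
values are algebraic over `baseField f`), `baseField f` is algebraically closed in `L`, and it is
the smallest field with these two properties; the dimension of `M₀` is at least the dimension of
the image of each map. If the maps together are generically finite (all functions are algebraic
over the values), then `M` is of general type. -/
theorem result {k : Type} [Field k] [CharZero k] [IsAlgClosed k] {N n r s : ℕ} (hn : 1 ≤ n)
    (hr : 1 ≤ r) (hs : 1 ≤ s)
    (hN : 4 * (s * (r * n)) + (s * (r * n) + s * (r * (r - 1)) + 1) ^ 2 < 2 * (N + 1))
    (a : Fin (N + 1) → k) (ha : Function.Injective a) {L : Type} [Field L] [Algebra k L] {D : ℕ}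
    (hD : Algebra.trdeg k L = D) {ι : Type*} (f : ι → MultiMap k L a n r)
    (hfin : D ≤ s ∨ Finite ι ∧ Nat.card ι ≤ s) :
    ∃ w ≤ D, GeneralType k (baseField f) w ∧
      (∀ i, ∀ v ∈ (f i).values, IsAlgebraic (baseField f) v) ∧
      (∀ x : L, IsAlgebraic (baseField f) x → x ∈ baseField f) ∧
      (∀ L1 : IntermediateField k L, (∀ x : L, IsAlgebraic L1 x → x ∈ L1) →
        (∀ i, ∀ v ∈ (f i).values, IsAlgebraic L1 v) → baseField f ≤ L1) ∧
      (∀ i, Algebra.trdeg k (coords k (f i).y) ≤ w) ∧
      (Algebra.IsAlgebraic (IntermediateField.adjoin k (⋃ i, (f i).values))
        (AlgebraicClosure L) → GeneralType k L D) :=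
  Pool.Agent.N115.JT.main_thm f hn hr hs hN ha hD hfin

end Pool.Agent.Results.MP_5ff3c6_ag.MultivaluedFibrations
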