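import Pool.Agent.N110.PA.Main
import Pool.Agent.N110.RK.Stat
import Pool.Agent.N110.NV.Fin
import Pool.Agent.R887.NefP
import Pool.Agent.R887.Exc

/-!
Abelian groups of birational self-maps of positive entropy, isomorphisms in codimension one, which
preserve `K_X + Δ`: a bound for the rank by the numerical dimension, and abundance if the rank is
maximal.
-/

set_option autoImplicit false

open FF Pool.Agent.W602.GT Pool.Agent.Y172 Pool.Agent.R887 Pool.Agent.N110

/-- Let `X` be a normal projective variety of dimension `n ≥ 1`, with generic point `y`, and `Δ ≥ 0`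
a `ℚ`-divisor on `X` (`Δ = 0`, for instance). By the theorem of Néron and Severi the group of the
divisors on `X` modulo numerical equivalence is finitely generated; this is the hypothesis `hN`. Let
`ℤ ^ r`, `r ≥ 1`, act by birational self-maps `f_v` of `X`, given by the automorphisms
`φ v = f_v^*` of the function field, which are isomorphisms in codimension one (every birational
self-map of a minimal variety is one) and preserve `Δ`. Suppose that the first dynamical degree of
`f_v` is greater than `1` for all `v ≠ 0`. Then `r ≤ n - 1`, the numerical dimension of `K_X + Δ` is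
at most `n - 1 - r`, and so is the Kodaira dimension. If the Kodaira dimension is at least
`n - 1 - r` then the Kodaira dimension and the numerical dimension of `K_X + Δ` are equal. Let
`r = n - 1` and let the irregularity of `X` be zero. If `K_X + Δ` is pseudo-effective then the
Kodaira dimension and the numerical dimension of `K_X + Δ` are zero, and if `K_X + Δ` is nef then
`m (K_X + Δ)` is trivial for some `m ≥ 1`: it has a section `ω ≠ 0` without zeros. -/
theorem Pool.Agent.Results.MP_5ff3c6_ag.PositiveEntropyRank.result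
    {K : Type} [Field K] [Algebra ℂ K] {N n : ℕ} {y : Fin (N + 1) → K} (hy : NormalModel y)
    (hn : Algebra.trdeg ℂ K = n) (hn0 : 0 < n) (hN : NeronSeveri y) {Δ : Place ℂ K → ℚ}
    (hΔ : Effective y Δ) {r : ℕ} (hr : 0 < r) {φ : (Fin r → ℤ) → (K ≃ₐ[ℂ] K)}
    (hφ : ∀ u v, φ (u + v) = φ u * φ v) (hiso : ∀ v, PseudoAut (φ v) y)
    (hφΔ : ∀ v (P Q : Place ℂ K), IsPrimeDivisor y Q → (∀ g, P.ord g = Q.ord (φ v g)) → Δ P = Δ Q)
    (hent : ∀ v, v ≠ 0 → 1 < dynDegree (φ v) y n 1) :
    r < n ∧ NumDimLt y n Δ (n - r) ∧ ¬ KappaGe y n Δ (n - r) ∧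
      (KappaGe y n Δ (n - r - 1) → Abundant y n Δ) ∧
      (r + 1 = n → IrregularityZero y → LogPsef y n Δ →
        kodairaDim y n Δ = ((0 : ℕ) : WithBot ℕ) ∧
          ∀ A, Effective y A → Integral y A → numericalDim y n Δ A = ((0 : ℕ) : EReal)) ∧
      (r + 1 = n → IrregularityZero y → LogNef y n Δ → ∃ m : ℕ, 1 ≤ m ∧
        ∃ ω : (Fin n → Derivation ℂ K K) → K, IsSection y n m (m • Δ) ω ∧ ω ≠ 0 ∧
          ∀ P, IsPrimeDivisor y P → OrdEq P ω (-(m * Δ P))) := by
  have hgr := RK.growthRank_of_exp (PA.growthN hy hn hn0 hN hr hφ hiso hent)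
  obtain ⟨h1, h2⟩ := RK.rank_main hy hn hn0 hΔ.2 hr hφ
    (fun v => PA.pullLe_pseudoAut (hiso v) fun P Q hQ hP => (hφΔ v P Q hQ hP).le) hgr
  refine ⟨h1, h2, ?_, fun h => ⟨n - r - 1, h, ?_⟩, fun h3 hq hpsef => ?_, fun h3 hq hnef => ?_⟩
  · rintro ⟨m, hm, ω, E, hω, h0, hind⟩
    exact kappa_lt hy hn (Nat.sub_le _ _) h2 hm hω h0 hind
  · rwa [show n - r - 1 + 1 = n - r by omega]
  · rw [show n - r = 1 by omega] at h2
    obtain ⟨m, hm, ω, hω0, hω⟩ := NV.nonvanishing hy hn hn0 hΔ.2 hpsef h2 hq
    exact abundance_zero hy hn hn0 hΔ h2 hm hω hω0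
  · rw [show n - r = 1 by omega] at h2
    obtain ⟨m, hm, ω, hω0, hω⟩ := NV.nonvanishing hy hn hn0 hΔ.2
      (NV.psef_of_nef hy hn hn0 hnef) h2 hq
    exact ⟨m, hm, ω, hω, hω0, fun P hP => nef_trivialP hy hn hn0 h2 hnef hm hω hω0 P hP⟩
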