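import Pool.Agent.N110.QG.Fin
import Pool.Agent.R887.Exc

/-!
Groups of birational self-maps which preserve `K_X + Δ`: if the numerical dimension of `K_X + Δ` is
at least `dim X - 1` then the degrees grow at most quadratically; abundance if they grow faster and
the Kodaira dimension is at least `dim X - 2`.
-/

set_option autoImplicit false

open FF Pool.Agent.W602.GT Pool.Agent.Y172 Pool.Agent.R887 Pool.Agent.N110

/-- Let `X` be a normal projective variety of dimension `n ≥ 2` with generic point `y`, and `Δ` a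
`ℚ`-divisor on `X`. Let `S` be a set of birational self-maps `f` of `X` (a finite set, for
instance), given by the automorphisms `φ = f^*` of the function field, of bounded degrees, which
preserve `K_X + Δ` over the prime divisors of `X`, or let `Δ = 0` and let `X` have canonical
singularities (for example, let `X` be a minimal variety); then `S` may be any set of birational
self-maps of bounded degrees. If the numerical dimension of `K_X + Δ` is at least `n - 1`, then the
degrees of the products of `l` maps of `S` are at most `A * (l + 1) ^ 2`, with a constant `A` for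
all `l`. So let there be no such constant (for instance, let the degrees of the iterates of a single
map of `S` grow faster). Then the numerical dimension of `K_X + Δ` is at most `n - 2`, and so is the
Kodaira dimension; if the Kodaira dimension is at least `n - 2` then the Kodaira dimension and the
numerical dimension of `K_X + Δ` are equal. -/
theorem Pool.Agent.Results.MP_5ff3c6_ag.QuadraticGrowth.result
    {K : Type} [Field K] [Algebra ℂ K] {N n : ℕ} {y : Fin (N + 1) → K} (hy : NormalModel y)
    (hn : Algebra.trdeg ℂ K = n) (hn2 : 2 ≤ n) {Δ : Place ℂ K → ℚ} (hΔ : Effective y Δ)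
    {S : Set (K ≃ₐ[ℂ] K)} {B : ℕ} (hB : ∀ φ ∈ S, mixedDegree φ y n 1 ≤ B)
    (h : (∀ φ ∈ S, PullLe φ y n Δ ∧ PullLe φ⁻¹ y n Δ) ∨ (Δ = 0 ∧ Canonical y n)) :
    (¬ NumDimLt y n Δ (n - 1) → ∃ A : ℝ, ∀ w : List (K ≃ₐ[ℂ] K), (∀ φ ∈ w, φ ∈ S) →
      mixedDegree w.prod y n 1 ≤ ENNReal.ofReal (A * (w.length + 1) ^ 2)) ∧
    ((∀ A : ℝ, ∃ w : List (K ≃ₐ[ℂ] K), (∀ φ ∈ w, φ ∈ S) ∧
      ENNReal.ofReal (A * (w.length + 1) ^ 2) < mixedDegree w.prod y n 1) →
      NumDimLt y n Δ (n - 1) ∧ ¬ KappaGe y n Δ (n - 1) ∧
        (KappaGe y n Δ (n - 2) → Abundant y n Δ)) := by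
  have h1 := QG.quadratic_growth hy hn hn2 hΔ.2 h hB
  refine ⟨h1, fun h2 => ?_⟩
  have h3 : NumDimLt y n Δ (n - 1) := by
    by_contra h3
    obtain ⟨A, hA⟩ := h1 h3
    obtain ⟨w, hw, hlt⟩ := h2 A
    exact absurd hlt (not_lt.2 (hA w hw))
  refine ⟨h3, ?_, fun h4 => ⟨n - 2, h4, ?_⟩⟩
  · rintro ⟨m, hm, ω, E, hω, h0, hind⟩
    exact kappa_lt hy hn (Nat.sub_le _ _) h3 hm hω h0 hind
  · rwa [show n - 2 + 1 = n - 1 by omega]
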