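import Pool.Agent.N110.CanS
import Pool.Agent.R887.NefP

/-!
Minimal varieties with rational self-maps: the numerical dimension is bounded by the number of the
consecutive greatest dynamical degrees, and abundance if the greatest dynamical degree is not
attained at two consecutive indices.
-/

set_option autoImplicit false

open FF Pool.Agent.W602.GT Pool.Agent.Y172 Pool.Agent.R887 Pool.Agent.N110

/-- Let `X` be a projective variety of dimension `n ≥ 1` with canonical (for instance terminal)
singularities, with generic point `y`, such that `K_X` is nef. Let `S` be a set of dominant rational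
self-maps `f` of `X`, invertible or not, given by the endomorphisms `φ = f^*` of the function field,
of bounded degrees (a single map, for instance). Suppose that the greatest of the joint dynamical
degrees `λ 0, ..., λ n` of `S` (the dynamical degrees of `f`, if `S = {f}`) is not attained at
`ν + 1` consecutive indices. Then the numerical dimension of `K_X` is less than `ν`.

For `ν = 1` this is a case of abundance: if the greatest dynamical degree is not attained at two
consecutive indices (if it is attained only once, for instance), then `K_X` is numerically trivial,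
and the sections `η ≠ 0` of `m K_X` have no zeros, for all `m ≥ 1`. -/
theorem Pool.Agent.Results.MP_5ff3c6_ag.SelfMapDegreePlateau.result
    {K : Type} [Field K] [Algebra ℂ K] {N n : ℕ} {y : Fin (N + 1) → K} (hy : NormalModel y)
    (hn : Algebra.trdeg ℂ K = n) (hn0 : 0 < n) (hcan : Canonical y n) (hnef : CanonicalNef y n)
    {S : Set (K →ₐ[ℂ] K)} {C : ℕ} (hC : ∀ φ ∈ S, selfDegree φ y n 1 ≤ C) {ν : ℕ} (hν : ν ≤ n)
    (hdeg : ∀ j, j + ν ≤ n → ∃ a ≤ ν, ∃ p ≤ n,
      selfJointDegree S y n (j + a) < selfJointDegree S y n p) :
    NumDimLt y n 0 ν ∧ (ν = 1 → ∀ m : ℕ, 1 ≤ m → ∀ η : (Fin n → Derivation ℂ K K) → K,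
      IsSection y n m 0 η → η ≠ 0 → ∀ P, IsPrimeDivisor y P → OrdEq P η 0) := by
  have hln := logNef_of_canonicalNef hnef
  have key : NumDimLt y n 0 ν := by
    by_contra hnum
    obtain ⟨j, hj, h4⟩ := splateau hy hn
      (Set.finite_empty.subset (by rintro P ⟨-, h⟩; exact h rfl)) hln
      (fun φ _ => selfPullLe_canonical hy hn hcan φ) hC hν hnum
    obtain ⟨a, ha, p, hp, hlt⟩ := hdeg j hj
    exact absurd hlt (not_lt.2 (h4 a ha p hp))
  refine ⟨key, ?_⟩
  rintro rfl m hm η hη hη0 P hP
  have hs : IsSection y n m (m • (0 : Place ℂ K → ℚ)) η := by rwa [smul_zero]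
  have h2 := nef_trivialP hy hn hn0 key hln hm hs hη0 P hP
  rwa [Pi.zero_apply, mul_zero, neg_zero] at h2
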